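import Mathlib
import Pool.Agent.helper536_SFT.Sft
import Pool.Agent.helper536_SFT.Final

/-!
For every dimension d at least 2 there is a subshift of finite type on Z^d, over a finite alphabet,
which has positive entropy and all of whose nonempty sub-SFTs have positive entropy.
-/

open Helper536

theorem Pool.Agent.Results.MP_05dae2_an.PositiveSubSFT.result (d : ℕ) (hd : 2 ≤ d) :
    ∃ (S : Type) (_ : Finite S) (A : Set (Conf d S)), IsSFT A ∧
      (∃ η : ℝ, 0 < η ∧ HasEntropy A η) ∧
      ∀ B : Set (Conf d S), B ⊆ A → IsSFT B → B.Nonempty → ∃ η : ℝ, 0 < η ∧ HasEntropy B η := by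
  obtain ⟨n, rfl⟩ : ∃ n, d = n + 2 := ⟨d - 2, by omega⟩
  exact ⟨Final.Alph n, (J70.ok_cells n).1, Final.subA n, Final.subA_sft n,
    Final.main _ subset_rfl (Final.subA_sft n)
      ⟨_, Final.zs_mem 0 (fun _ => False)⟩,
    fun B hB hs hne => Final.main B hB hs hne⟩
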